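import Pool.Agent.H90.STE.Stmts

/-!
# Sticky families with random time: information of the copies on the time (row TN)
-/

set_option autoImplicit false

namespace Pool.STE

open Finset Real
open Pool.Agent.H49.Ent Pool.Agent.H32.Dense Pool.STK Pool.KA

namespace TN

lemma CH_pi {Ω S T : Type} [Fintype Ω] {p : Ω → ℝ} (hp : ∀ ω, 0 ≤ p ω) (W : Ω → T) :
    ∀ {N : ℕ} (Y : Ω → Fin N → S), CH p Y W ≤ ∑ r, CH p (fun ω => Y ω r) W := by
  intro N
  induction N with
  | zero =>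
    intro Y
    rw [Fin.sum_univ_zero]
    exact (CH_eq_zero hp fun ω ω' _ _ _ => Subsingleton.elim _ _).le
  | succ n ih =>
    intro Y
    rw [Fin.sum_univ_succ]
    have h1 : CH p Y W ≤ CH p (fun ω => (Y ω 0, fun r : Fin n => Y ω r.succ)) W := by
      refine CH_mono_left hp fun ω ω' _ _ h => ?_
      simp only [Prod.mk.injEq] at h
      funext i
      refine Fin.cases h.1.1 (fun j => ?_) i
      exact congrFun h.1.2 j
    have h2 := CH_subadd hp (fun ω => Y ω 0) (fun ω => fun r : Fin n => Y ω r.succ) W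
    have h3 := ih (fun ω => fun r : Fin n => Y ω r.succ)
    linarith

/-- Data processing: if `(Y, W)` determines `X` and `W'` determines `W` then the information of
`X` on `W'` given `W` is at most the information of `Y`. -/
lemma info_le' {Ω S T U V : Type} [Fintype Ω] {p : Ω → ℝ} (hp : ∀ ω, 0 ≤ p ω) {Y : Ω → S}
    {X : Ω → T} {W : Ω → U} {W' : Ω → V} (hX : Det p (fun ω => (Y ω, W ω)) X)
    (hW : Det p W' W) : CH p X W - CH p X W' ≤ CH p Y W - CH p Y W' := by
  have hX' : Det p (fun ω => (Y ω, W' ω)) X := by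
    intro ω ω' a b h
    exact hX ω ω' a b (Prod.ext (Prod.ext_iff.mp h).1 (hW ω ω' a b (Prod.ext_iff.mp h).2))
  have e : ∀ {R : Type} (A : Ω → R), Det p (fun ω => (Y ω, A ω)) X →
      CH p Y A = CH p X A + CH p Y (fun ω => (X ω, A ω)) := by
    intro R A hA
    rw [← CH_chain hp]
    refine CH_congr hp ?_ ?_ (fun _ _ _ _ h => h) (fun _ _ _ _ h => h)
    · intro ω ω' a b h
      exact Prod.ext (Prod.ext_iff.mp h).1 (hA ω ω' a b h)
    · intro ω ω' _ _ h
      exact (Prod.ext_iff.mp (Prod.ext_iff.mp h).1).1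
  have e1 := e W hX
  have e2 := e W' hX'
  have e3 : CH p Y (fun ω => (X ω, W' ω)) ≤ CH p Y (fun ω => (X ω, W ω)) := by
    refine CH_mono_cond hp ?_
    intro ω ω' a b h
    exact Prod.ext (Prod.ext_iff.mp h).1 (hW ω ω' a b (Prod.ext_iff.mp h).2)
  linarith

variable {m J : ℕ}

/-- The information of the time on the line, given the coarse line and the first digits. -/
lemma time_info (F : Fam m J) {k : ℕ} (hk : k ≤ J) {e : ℝ} (he : F.Tm e) (j : ℕ) :
    CH F.p F.l (fun ω => (F.L j ω, (F.T1 k ω, F.Z ω))) -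
      CH F.p F.l (fun ω => (F.L j ω, F.W ω)) ≤ e := by
  have hp := F.isLaw.nonneg
  -- symmetry of the information
  have s1 := CH_chain hp F.l F.T (fun ω => (F.L j ω, (F.T1 k ω, F.Z ω)))
  have s2 : CH F.p (fun ω => (F.l ω, F.T ω)) (fun ω => (F.L j ω, (F.T1 k ω, F.Z ω))) =
      CH F.p (fun ω => (F.T ω, F.l ω)) (fun ω => (F.L j ω, (F.T1 k ω, F.Z ω))) := by
    refine CH_congr hp ?_ ?_ (fun _ _ _ _ h => h) (fun _ _ _ _ h => h)
    · intro ω ω' _ _ h
      simp only [Prod.mk.injEq] at h ⊢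
      exact ⟨h.1.2, h.1.1⟩
    · intro ω ω' _ _ h
      simp only [Prod.mk.injEq] at h ⊢
      exact ⟨h.1.2, h.1.1⟩
  have s3 := CH_chain hp F.T F.l (fun ω => (F.L j ω, (F.T1 k ω, F.Z ω)))
  have s4 : CH F.p F.l (fun ω => (F.T ω, (F.L j ω, (F.T1 k ω, F.Z ω)))) =
      CH F.p F.l (fun ω => (F.L j ω, F.W ω)) := by
    refine CH_congr hp (fun _ _ _ _ h => (Prod.ext_iff.mp h).1)
      (fun _ _ _ _ h => (Prod.ext_iff.mp h).1) ?_ ?_
    · intro ω ω' _ _ h
      simp only [Fam.W, Prod.mk.injEq] at h ⊢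
      exact ⟨h.2.1, h.1, h.2.2.2⟩
    · intro ω ω' _ _ h
      simp only [Fam.W, Fam.T1, Prod.mk.injEq] at h ⊢
      exact ⟨h.2.1, h.1, by rw [h.2.1], h.2.2⟩
  -- upper bound for the entropy of the time
  have hJ : J - k + k = J := Nat.sub_add_cancel hk
  have u1 : CH F.p F.T (fun ω => (F.L j ω, (F.T1 k ω, F.Z ω))) ≤
      ((J - k : ℕ) : ℝ) * Real.log 2 := by
    have h1 : CH F.p F.T (fun ω => (F.L j ω, (F.T1 k ω, F.Z ω))) ≤
        CH F.p (fun ω => F.T ω % 2 ^ (J - k)) (fun ω => (F.L j ω, (F.T1 k ω, F.Z ω))) := by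
      refine CH_mono_left hp ?_
      intro ω ω' _ _ h
      simp only [Fam.T1, Prod.mk.injEq] at h
      rw [← Nat.div_add_mod (F.T ω) (2 ^ (J - k)), ← Nat.div_add_mod (F.T ω') (2 ^ (J - k)),
        h.1, h.2.2.1]
    have h2 := CH_le_card hp F.isLaw.sum_one (fun ω => F.T ω % 2 ^ (J - k))
      (fun ω => (F.L j ω, (F.T1 k ω, F.Z ω))) (fun _ => Finset.range (2 ^ (J - k)))
      (fun ω _ => Finset.mem_range.mpr (Nat.mod_lt _ (by positivity)))
    rw [Ex_const F.isLaw.sum_one, Finset.card_range] at h2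
    push_cast at h2
    rw [Real.log_pow] at h2
    linarith
  -- lower bound
  have l0 : CH F.p F.T (fun ω => (F.l ω, (F.L j ω, (F.T1 k ω, F.Z ω)))) =
      CH F.p F.T (fun ω => (F.T1 k ω, (F.l ω, F.Z ω))) := by
    refine CH_congr hp (fun _ _ _ _ h => (Prod.ext_iff.mp h).1)
      (fun _ _ _ _ h => (Prod.ext_iff.mp h).1) ?_ ?_
    · intro ω ω' _ _ h
      simp only [Prod.mk.injEq] at h ⊢
      exact ⟨h.2.2.1, h.1, h.2.2.2⟩
    · intro ω ω' _ _ h
      simp only [Prod.mk.injEq] at h ⊢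
      refine ⟨h.2.1, ?_, h.1, h.2.2⟩
      have h1 := h.2.1
      simp only [Fam.l, Prod.mk.injEq] at h1
      unfold Fam.L
      rw [h1.1, h1.2]
  have l1 : CH F.p F.T (fun ω => (F.l ω, F.Z ω)) ≤
      CH F.p (F.T1 k) (fun ω => (F.l ω, F.Z ω)) +
        CH F.p F.T (fun ω => (F.T1 k ω, (F.l ω, F.Z ω))) := CH_le_add hp _ _ _
  have l2 : CH F.p (F.T1 k) (fun ω => (F.l ω, F.Z ω)) ≤ (k : ℝ) * Real.log 2 := by
    have h2 := CH_le_card hp F.isLaw.sum_one (F.T1 k) (fun ω => (F.l ω, F.Z ω))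
      (fun _ => Finset.range (2 ^ k)) (fun ω _ => Finset.mem_range.mpr (by
        unfold Fam.T1
        rw [Nat.div_lt_iff_lt_mul (by positivity), ← pow_add]
        have h := F.tim ω
        rwa [Nat.add_comm, hJ]))
    rw [Ex_const F.isLaw.sum_one, Finset.card_range] at h2
    push_cast at h2
    rwa [Real.log_pow] at h2
  have hT : (J : ℝ) * Real.log 2 - e ≤ CH F.p F.T (fun ω => (F.l ω, F.Z ω)) := he
  have hc : ((J - k : ℕ) : ℝ) = (J : ℝ) - k := by
    rw [Nat.cast_sub hk]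
  rw [hc] at u1
  have e1 : ((J : ℝ) - k) * Real.log 2 = J * Real.log 2 - k * Real.log 2 := by ring
  rw [e1] at u1
  linarith

end TN

open TN in
/-- The differences carry little information on the time. -/
theorem tn (hMUL : MULStmt) (hMUI : MUIStmt) : TNStmt := by
  intro m J F k N e hk he
  obtain ⟨hq, -, hm⟩ := hMUL F.Ω (((Fin m → ℤ) × (Fin m → ℤ)) × (ℕ × F.ζ)) N F.p
    (fun r : Fin N => bT F k r) F.isLaw
  have hp := F.isLaw.nonneg
  have hq0 : ∀ w, 0 ≤ pT F k N w := hq.nonneg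
  have h1 : CH (pT F k N) (yT F k N) (fun w => (F.l w.1, (F.T1 k w.1, F.Z w.1))) ≤
      ∑ r : Fin N, CH (dbl F.p (bT F k r)) (zT F k (((r : ℕ) + 1) * k))
        (fun w => (F.l w.1, (F.T1 k w.1, F.Z w.1))) := by
    refine (CH_pi hq0 _ (yT F k N)).trans (Finset.sum_le_sum fun r _ => ?_)
    exact ((hm r).CH (zT F k (((r : ℕ) + 1) * k))
      (fun w => (F.l w.1, (F.T1 k w.1, F.Z w.1)))).le
  have h2 := hMUI F.Ω (((Fin m → ℤ) × (Fin m → ℤ)) × (ℕ × F.ζ)) (Fin m → ℤ) N F.p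
    (fun r : Fin N => bT F k r) F.isLaw (fun r => zT F k (((r : ℕ) + 1) * k))
  have h3 : ∀ r : Fin N, CH (dbl F.p (bT F k r)) (zT F k (((r : ℕ) + 1) * k))
        (fun w => (F.l w.1, (F.T1 k w.1, F.Z w.1))) -
      CH (dbl F.p (bT F k r)) (zT F k (((r : ℕ) + 1) * k)) (fun w => w.1) ≤ e := by
    intro r
    have hd0 : ∀ w, 0 ≤ dbl F.p (bT F k r) w := dbl_nonneg hp
    have a1 := info_le' hd0 (p := dbl F.p (bT F k r)) (Y := fun w => F.l w.2)
      (X := zT F k (((r : ℕ) + 1) * k))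
      (W := fun w => (F.l w.1, (F.T1 k w.1, F.Z w.1))) (W' := fun w => w.1)
      (by
        intro w w' a b h
        simp only [Fam.l, Prod.mk.injEq] at h
        have t1 := dbl_eq hp a
        have t2 := dbl_eq hp b
        simp only [bT, Fam.W, Prod.mk.injEq] at t1 t2
        unfold zT Fam.x1 Fam.T1
        have q1 : F.T w.1 / 2 ^ (J - k) = F.T w'.1 / 2 ^ (J - k) := h.2.2.1
        rw [← t1.2.1, ← t2.2.1, q1, h.1.1, h.1.2, h.2.1.1, h.2.1.2])
      (by
        intro w w' _ _ h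
        have h' : w.1 = w'.1 := h
        simp only [h'])
    have a2 : CH (dbl F.p (bT F k r)) (fun w => F.l w.2)
        (fun w => (F.l w.1, (F.T1 k w.1, F.Z w.1))) ≤
        CH F.p F.l (fun ω => (F.L (r * k) ω, (F.T1 k ω, F.Z ω))) := by
      have b1 : CH (dbl F.p (bT F k r)) (fun w => F.l w.2)
          (fun w => (F.l w.1, (F.T1 k w.1, F.Z w.1))) ≤
          CH (dbl F.p (bT F k r)) (fun w => F.l w.2)
            (fun w => (F.L (r * k) w.2, (F.T1 k w.2, F.Z w.2))) := by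
        refine CH_mono_cond hd0 ?_
        intro w w' a b h
        have t1 := dbl_eq hp a
        have t2 := dbl_eq hp b
        simp only [bT, Fam.W, Prod.mk.injEq] at t1 t2
        simp only [Fam.l, Prod.mk.injEq] at h
        have q1 : F.L (r * k) w.1 = F.L (r * k) w'.1 := by
          unfold Fam.L
          rw [h.1.1, h.1.2]
        simp only [Prod.mk.injEq]
        refine ⟨?_, ?_, ?_⟩
        · rw [← t1.1, ← t2.1, q1]
        · have q2 : F.T1 k w.2 = F.T1 k w.1 := by unfold Fam.T1; rw [t1.2.1]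
          have q3 : F.T1 k w'.2 = F.T1 k w'.1 := by unfold Fam.T1; rw [t2.2.1]
          rw [q2, q3, h.2.1]
        · rw [← t1.2.2, ← t2.2.2, h.2.2]
      refine b1.trans (le_of_eq ?_)
      exact (dbl_snd hp).CH F.l (fun ω => (F.L (r * k) ω, (F.T1 k ω, F.Z ω)))
    have a3 : CH F.p F.l (bT F k r) ≤ CH (dbl F.p (bT F k r)) (fun w => F.l w.2)
        (fun w => w.1) := by
      rw [← CH_dbl_2 (b := bT F k r) hp F.l (fun ω => ω)]
      refine CH_mono_cond hd0 ?_
      intro w w' _ _ h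
      exact (Prod.ext_iff.mp h).2
    have a4 := time_info F hk he (r * k)
    have a5 : CH F.p F.l (bT F k r) = CH F.p F.l (fun ω => (F.L (r * k) ω, F.W ω)) := rfl
    linarith
  have h4 : ∑ r : Fin N, (CH (dbl F.p (bT F k r)) (zT F k (((r : ℕ) + 1) * k))
        (fun w => (F.l w.1, (F.T1 k w.1, F.Z w.1))) -
      CH (dbl F.p (bT F k r)) (zT F k (((r : ℕ) + 1) * k)) (fun w => w.1)) ≤ N * e := by
    refine (Finset.sum_le_sum fun r _ => h3 r).trans (le_of_eq ?_)
    rw [Finset.sum_const, Finset.card_univ, Fintype.card_fin, nsmul_eq_mul]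
  rw [Finset.sum_sub_distrib] at h4
  have h5 : CH (multi F.p (fun r : Fin N => bT F k r))
      (fun w (r : Fin N) => zT F k (((r : ℕ) + 1) * k) (w.1, w.2 r)) (fun w => w.1) =
      CH (pT F k N) (yT F k N) (fun w => w.1) := rfl
  linarith

end Pool.STE
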