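import Pool.Agent.H90.STE.Stmts2
import Pool.Agent.H73.KFIN.Typ

/-!
# Sticky Kakeya with shadings: the typical multiplicity
-/

set_option autoImplicit false

namespace Pool.STE

open Finset Real MeasureTheory
open scoped RealInnerProductSpace ENNReal
open Pool.Agent.H49.Ent Pool.Agent.H32.Dense Pool.STK Pool.KA
open Pool.Agent.H53.Kak (E tube)

namespace TY

theorem cd_le_two {d : ℕ} (hd : 1 ≤ d) : Pool.KFIN.cd d ≤ 2 := by
  unfold Pool.KFIN.cd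
  rcases Nat.lt_or_ge d 2 with h | h
  · have : d = 1 := by omega
    subst this
    norm_num
  · have h1 : (2 / d : ℝ) ≤ 1 := by
      rw [div_le_one (by exact_mod_cast (by omega : 0 < d))]
      exact_mod_cast h
    have h2 : (0 : ℝ) ≤ 2 / d := by positivity
    have := pow_le_one₀ (n := d) h2 h1
    linarith

theorem covM_comp {d : ℕ} {ι κ : Type} {L δ : ℝ} {M : ℕ} {A : ℕ → ℕ} {c e : ι → E d}
    (h : CovM L δ M A c e) (f : κ → ι) : CovM L δ M A (fun i => c (f i)) (fun i => e (f i)) := by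
  intro r h1 h2
  obtain ⟨h3, h4⟩ := h r h1 h2
  refine ⟨h3, fun x v hv => ?_⟩
  obtain ⟨F, hF, hF1, hF2⟩ := h4 x v hv
  exact ⟨F, hF, hF1, fun i => hF2 (f i)⟩

theorem prod_ge {d : ℕ} {ι : Type} {L δ : ℝ} {M : ℕ} {A : ℕ → ℕ} {c e : ι → E d}
    (h : CovM L δ M A c e) : 1 ≤ ∏ r ∈ Finset.Ico 1 M, (A r : ℝ) := by
  have h1 : ∏ r ∈ Finset.Ico 1 M, (1 : ℝ) ≤ ∏ r ∈ Finset.Ico 1 M, (A r : ℝ) := by
    refine Finset.prod_le_prod (fun _ _ => zero_le_one) ?_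
    intro r hr
    rw [Finset.mem_Ico] at hr
    exact_mod_cast (h r hr.1 hr.2).1
  simpa using h1

end TY

/-- **TY1**: off a part `δ ^ θ` of the mass the multiplicity of a sticky family is small. -/
theorem ty1 (hDN : DN1Stmt) : TY1Stmt := by
  intro d hd ε L hε hL
  obtain ⟨M, hM, P, C, hP, hC, hdn⟩ := hDN d hd (ε / 2) L (by linarith) hL
  have hcd := Pool.KFIN.cd_pos hd
  have hcd2 := TY.cd_le_two hd
  obtain ⟨cdv, hcdv⟩ : ∃ x, x = Pool.KFIN.cd d := ⟨_, rfl⟩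
  obtain ⟨θ, hθdef⟩ : ∃ θ, θ = ε / (2 * (P + 1)) := ⟨_, rfl⟩
  have hθ : 0 < θ := by rw [hθdef]; positivity
  have hθP : θ * (P + 1) = ε / 2 := by rw [hθdef]; field_simp
  -- the constant of the multiplicity
  obtain ⟨C₁, hC₁⟩ : ∃ C₁, C₁ = 1 + 2 ^ d * (2 ^ (d + 1) / cdv) * C * (cdv / 2) ^ (-P) := ⟨_, rfl⟩
  have hcdv0 : 0 < cdv := by rw [hcdv]; exact hcd
  have hC₁1 : 1 ≤ C₁ := by
    rw [hC₁]
    have : 0 ≤ 2 ^ d * (2 ^ (d + 1) / cdv) * C * (cdv / 2) ^ (-P) := by positivity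
    linarith
  have hC₁2 : 2 ^ d * (2 ^ (d + 1) / cdv) < C₁ * (C⁻¹ * (cdv / 2) ^ P) := by
    have h1 : (cdv / 2) ^ (-P) * (cdv / 2) ^ P = 1 := by
      rw [← Real.rpow_add (by positivity)]; simp
    have h2 : C₁ * (C⁻¹ * (cdv / 2) ^ P) = C⁻¹ * (cdv / 2) ^ P + 2 ^ d * (2 ^ (d + 1) / cdv) := by
      rw [hC₁]
      calc (1 + 2 ^ d * (2 ^ (d + 1) / cdv) * C * (cdv / 2) ^ (-P)) * (C⁻¹ * (cdv / 2) ^ P)
          = C⁻¹ * (cdv / 2) ^ P + 2 ^ d * (2 ^ (d + 1) / cdv) * (C * C⁻¹) *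
            ((cdv / 2) ^ (-P) * (cdv / 2) ^ P) := by ring
        _ = _ := by rw [h1, mul_inv_cancel₀ hC.ne']; ring
    rw [h2]
    have : 0 < C⁻¹ * (cdv / 2) ^ P := by positivity
    linarith
  refine ⟨M, hM, θ, 2 ^ d * C₁, hθ, by positivity, ?_⟩
  intro δ hδ hδ1 N c e hu hsep A hcov
  obtain ⟨Pr, hPr⟩ : ∃ Pr, Pr = ∏ r ∈ Finset.Ico 1 M, (A r : ℝ) := ⟨_, rfl⟩
  have hPr1 : 1 ≤ Pr := by rw [hPr]; exact TY.prod_ge hcov
  rw [← hPr]
  have hPr0 : 0 < Pr := by linarith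
  obtain ⟨Λ, hΛ⟩ : ∃ Λ, Λ = C₁ * δ ^ (-ε) * Pr := ⟨_, rfl⟩
  have hδε : 1 ≤ δ ^ (-ε) := Real.one_le_rpow_of_pos_of_le_one_of_nonpos hδ hδ1.le (by linarith)
  have hΛ1 : 1 ≤ Λ := by
    rw [hΛ]
    exact one_le_mul_of_one_le_of_one_le (one_le_mul_of_one_le_of_one_le hC₁1 hδε) hPr1
  have hΛ0 : 0 < Λ := by linarith
  have h2d : (1 : ℝ) ≤ 2 ^ d := one_le_pow₀ (by norm_num)
  have hΛ2 : Λ ≤ 2 ^ d * C₁ * δ ^ (-ε) * Pr := by
    calc Λ ≤ 2 ^ d * Λ := le_mul_of_one_le_left hΛ0.le h2d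
      _ = _ := by rw [hΛ]; ring
  have hδθ : 0 < δ ^ θ := Real.rpow_pos_of_pos hδ _
  have hδθ1 : δ ^ θ ≤ 1 := Real.rpow_le_one hδ.le hδ1.le hθ.le
  obtain ⟨lam, hlam⟩ : ∃ lam, lam = cdv * δ ^ θ / 2 := ⟨_, rfl⟩
  have hlam0 : 0 < lam := by rw [hlam]; positivity
  have hlam1 : lam ≤ 1 := by
    rw [hlam, hcdv]
    nlinarith
  obtain ⟨B, hB⟩ : ∃ B, B = C⁻¹ * lam ^ P * δ ^ (ε / 2) * Pr⁻¹ := ⟨_, rfl⟩
  refine ⟨{x | mlt δ c e x ≤ Λ}, measurableSet_le (Pool.STK.TG2.measurable_mlt δ c e)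
    measurable_const, ?_, ?_, ?_⟩
  · -- the exceptional part
    refine Pool.KFIN.typical hd hδ c e hu (η := δ ^ θ) (B := B) (b := 1) (Λ := Λ) hδθ one_pos hΛ0
      ?_ ?_
    · intro S X hX hm
      have h1 := hdn δ hδ hδ1 S (fun i => c i) (fun i => e i) (fun i => hu i)
        (fun i i' hii => hsep i i' (fun h => hii (Subtype.ext h))) A (TY.covM_comp hcov _) lam X
        hlam0 hlam1 hX (fun i => by
          have := hm i i.2
          rw [← hcdv] at this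
          rw [hlam]
          exact this)
      rw [← hPr, Fintype.card_coe] at h1
      refine le_trans (ENNReal.ofReal_le_ofReal ?_) h1
      rw [hB, Real.rpow_one]
      apply le_of_eq
      ring
    · rw [← hcdv, sub_self, Real.rpow_zero, Real.rpow_one, mul_one]
      have e1 : lam ^ P = (cdv / 2) ^ P * δ ^ (θ * P) := by
        rw [hlam, show cdv * δ ^ θ / 2 = (cdv / 2) * δ ^ θ by ring,
          Real.mul_rpow (by positivity) hδθ.le, ← Real.rpow_mul hδ.le]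
      have e2 : Λ * B = C₁ * (C⁻¹ * (cdv / 2) ^ P) * δ ^ (-θ) := by
        rw [hΛ, hB, e1]
        have e3 : δ ^ (-θ) = δ ^ (-ε) * δ ^ (θ * P) * δ ^ (ε / 2) := by
          rw [← Real.rpow_add hδ, ← Real.rpow_add hδ]
          congr 1
          linarith
        rw [e3]
        calc C₁ * δ ^ (-ε) * Pr * (C⁻¹ * ((cdv / 2) ^ P * δ ^ (θ * P)) * δ ^ (ε / 2) * Pr⁻¹)
            = C₁ * (C⁻¹ * (cdv / 2) ^ P) * (δ ^ (-ε) * δ ^ (θ * P) * δ ^ (ε / 2)) *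
              (Pr * Pr⁻¹) := by ring
          _ = _ := by rw [mul_inv_cancel₀ hPr0.ne', mul_one]
      rw [e2]
      have e4 : δ ^ (-θ) = (δ ^ θ)⁻¹ := Real.rpow_neg hδ.le _
      rw [e4]
      calc (2 : ℝ) ^ d * (2 ^ (d + 1) / (cdv * δ ^ θ)) = 2 ^ d * (2 ^ (d + 1) / cdv) * (δ ^ θ)⁻¹ := by
            field_simp
        _ < _ := by
            refine mul_lt_mul_of_pos_right hC₁2 (by positivity)
  · intro x hx
    exact le_trans hx hΛ2
  · intro q hq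
    have hd0 : (0 : ℝ) < d := by exact_mod_cast hd
    have hq1 : 1 ≤ q := by
      have : 0 ≤ 1 / (d : ℝ) := by positivity
      linarith
    have hq0 : 0 < q := by linarith
    refine (Pool.KFIN.lq_bound hδ c e hu hΛ1 hq1).trans (ENNReal.ofReal_le_ofReal ?_)
    have k1 : Λ ^ (1 - 1 / q) ≤ Λ := by
      calc Λ ^ (1 - 1 / q) ≤ Λ ^ (1 : ℝ) := by
            refine Real.rpow_le_rpow_of_exponent_le hΛ1 ?_
            have : 0 ≤ 1 / q := by positivity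
            linarith
        _ = Λ := Real.rpow_one _
    have k2 : (N : ℝ) ^ (1 / q) ≤ (N : ℝ) ^ (1 - 1 / (q * d)) := by
      rcases Nat.eq_zero_or_pos N with h0 | h0
      · subst h0
        have : (1 / q : ℝ) ≠ 0 := by positivity
        rw [Nat.cast_zero, Real.zero_rpow this]
        positivity
      · refine Real.rpow_le_rpow_of_exponent_le (by exact_mod_cast h0) ?_
        have h3 : 1 / q * (1 + 1 / d) ≤ 1 := by
          rw [one_div_mul_eq_div, div_le_one hq0]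
          exact hq
        have h4 : 1 / q * (1 + 1 / (d : ℝ)) = 1 / q + 1 / (q * d) := by
          field_simp
        linarith
    calc Λ ^ (1 - 1 / q) * (2 ^ d * (δ ^ ((d : ℝ) / q) * (N : ℝ) ^ (1 / q)))
        ≤ Λ * (2 ^ d * (δ ^ ((d : ℝ) / q) * (N : ℝ) ^ (1 - 1 / (q * d)))) := by gcongr
      _ = _ := by rw [hΛ]; ring

end Pool.STE
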